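import Mathlib

set_option autoImplicit false
open MeasureTheory

namespace Pool.Agent.H431Z.Conv

/-- indicator function of `[i, i+1)` -/
noncomputable def box (i : ℕ) (t : ℝ) : ℝ := (Set.Ico (i : ℝ) (i + 1)).indicator (fun _ => (1 : ℝ)) t

lemma box_nonneg (i : ℕ) (t : ℝ) : 0 ≤ box i t :=
  Set.indicator_nonneg (fun _ _ => zero_le_one) t

lemma box_memLp (i : ℕ) (p : ENNReal) : MemLp (box i) p volume := by
  unfold box
  exact memLp_indicator_const p measurableSet_Ico (1 : ℝ) (Or.inr (by simp))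

lemma box_integral (i : ℕ) : ∫ t, box i t = 1 := by
  unfold box
  rw [integral_indicator measurableSet_Ico]
  simp

lemma box_mul_eq (i j : ℕ) (x : ℝ) :
    (fun t => box i t * box j (x - t)) =
      (Set.Ico (i : ℝ) (i + 1) ∩ Set.Ioc (x - j - 1) (x - j)).indicator (fun _ => (1 : ℝ)) := by
  funext t
  unfold box
  by_cases h1 : t ∈ Set.Ico (i : ℝ) (i + 1)
  · by_cases h2 : t ∈ Set.Ioc (x - j - 1) (x - j)
    · have h3 : x - t ∈ Set.Ico (j : ℝ) (j + 1) := ⟨by linarith [h2.2], by linarith [h2.1]⟩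
      rw [Set.indicator_of_mem h1, Set.indicator_of_mem h3, Set.indicator_of_mem (Set.mem_inter h1 h2)]
      simp
    · have h3 : x - t ∉ Set.Ico (j : ℝ) (j + 1) := fun h => h2 ⟨by linarith [h.2], by linarith [h.1]⟩
      have h4 : t ∉ Set.Ico (i : ℝ) (i + 1) ∩ Set.Ioc (x - j - 1) (x - j) := fun h => h2 h.2
      rw [Set.indicator_of_notMem h3, Set.indicator_of_notMem h4]
      simp
  · have h4 : t ∉ Set.Ico (i : ℝ) (i + 1) ∩ Set.Ioc (x - j - 1) (x - j) := fun h => h1 h.1
    rw [Set.indicator_of_notMem h1, Set.indicator_of_notMem h4]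
    simp

lemma box_mul_integrable (i j : ℕ) (x : ℝ) :
    Integrable (fun t => box i t * box j (x - t)) volume := by
  rw [box_mul_eq]
  refine (integrable_indicator_iff (measurableSet_Ico.inter measurableSet_Ioc)).2 ?_
  refine integrableOn_const ?_
  refine ne_top_of_le_ne_top ?_ (measure_mono Set.inter_subset_left)
  simp

lemma box_conv (i j : ℕ) (x : ℝ) :
    ∫ t, box i t * box j (x - t) =
      (if (i : ℤ) + j = ⌊x⌋ then Int.fract x else 0) +
        (if (i : ℤ) + j = ⌊x⌋ - 1 then 1 - Int.fract x else 0) := by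
  rw [box_mul_eq, integral_indicator (measurableSet_Ico.inter measurableSet_Ioc)]
  simp only [integral_const, MeasurableSet.univ, measureReal_restrict_apply, Set.univ_inter,
    smul_eq_mul, mul_one]
  have h0 := Int.fract_nonneg x
  have h1 := Int.fract_lt_one x
  have hx : (⌊x⌋ : ℝ) + Int.fract x = x := Int.floor_add_fract x
  by_cases hA : (i : ℤ) + j = ⌊x⌋
  · have hA' : (i : ℝ) + j = (⌊x⌋ : ℝ) := by exact_mod_cast hA
    rw [if_pos hA, if_neg (by omega)]
    have : Set.Ico (i : ℝ) (i + 1) ∩ Set.Ioc (x - j - 1) (x - j) = Set.Icc (i : ℝ) (i + Int.fract x) := by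
      ext t
      simp only [Set.mem_inter_iff, Set.mem_Ico, Set.mem_Ioc, Set.mem_Icc]
      constructor
      · rintro ⟨⟨a, b⟩, c, d⟩; constructor <;> linarith
      · rintro ⟨a, b⟩; refine ⟨⟨?_, ?_⟩, ?_, ?_⟩ <;> linarith
    rw [this]; simp [h0]
  · rw [if_neg hA]
    by_cases hB : (i : ℤ) + j = ⌊x⌋ - 1
    · have hB' : (i : ℝ) + j = (⌊x⌋ : ℝ) - 1 := by exact_mod_cast hB
      rw [if_pos hB]
      have : Set.Ico (i : ℝ) (i + 1) ∩ Set.Ioc (x - j - 1) (x - j) =
          Set.Ioo ((i : ℝ) + Int.fract x) (i + 1) := by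
        ext t
        simp only [Set.mem_inter_iff, Set.mem_Ico, Set.mem_Ioc, Set.mem_Ioo]
        constructor
        · rintro ⟨⟨a, b⟩, c, d⟩; constructor <;> linarith
        · rintro ⟨a, b⟩; refine ⟨⟨?_, ?_⟩, ?_, ?_⟩ <;> linarith
      rw [this]; simp [h1.le]
    · rw [if_neg hB]
      have : Set.Ico (i : ℝ) (i + 1) ∩ Set.Ioc (x - j - 1) (x - j) = ∅ := by
        ext t
        simp only [Set.mem_inter_iff, Set.mem_Ico, Set.mem_Ioc, Set.mem_empty_iff_false, iff_false]
        rintro ⟨⟨a, b⟩, c, d⟩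
        rcases lt_or_gt_of_ne hA with h | h
        · have h' : (i : ℤ) + j + 2 ≤ ⌊x⌋ := by omega
          have h'' : (i : ℝ) + j + 2 ≤ (⌊x⌋ : ℝ) := by exact_mod_cast h'
          linarith
        · have h' : ⌊x⌋ + 1 ≤ (i : ℤ) + j := by omega
          have h'' : (⌊x⌋ : ℝ) + 1 ≤ (i : ℝ) + j := by exact_mod_cast h'
          linarith
      rw [this]; simp

/-- step function with heights `w i` on `[i, i+1)`, `i ∈ S` -/
noncomputable def step (S : Finset ℕ) (w : ℕ → ℝ) (t : ℝ) : ℝ := ∑ i ∈ S, w i * box i t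

/-- discrete autoconvolution -/
noncomputable def dconv (S : Finset ℕ) (w : ℕ → ℝ) (m : ℤ) : ℝ :=
  ∑ i ∈ S, ∑ j ∈ S, if (i : ℤ) + j = m then w i * w j else 0

lemma step_memLp (S : Finset ℕ) (w : ℕ → ℝ) (p : ENNReal) : MemLp (step S w) p volume := by
  unfold step
  exact memLp_finsetSum S (fun i _ => (box_memLp i p).const_mul (w i))

lemma step_nonneg (S : Finset ℕ) (w : ℕ → ℝ) (hw : ∀ i, 0 ≤ w i) (t : ℝ) : 0 ≤ step S w t :=
  Finset.sum_nonneg fun i _ => mul_nonneg (hw i) (box_nonneg i t)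

lemma step_integral (S : Finset ℕ) (w : ℕ → ℝ) : ∫ t, step S w t = ∑ i ∈ S, w i := by
  unfold step
  rw [integral_finsetSum]
  · refine Finset.sum_congr rfl fun i _ => ?_
    rw [integral_const_mul, box_integral, mul_one]
  · intro i _
    exact (memLp_one_iff_integrable.1 (box_memLp i 1)).const_mul (w i)

lemma step_conv (S : Finset ℕ) (w : ℕ → ℝ) (x : ℝ) :
    ∫ t, step S w t * step S w (x - t) =
      Int.fract x * dconv S w ⌊x⌋ + (1 - Int.fract x) * dconv S w (⌊x⌋ - 1) := by
  have : (fun t => step S w t * step S w (x - t)) =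
      fun t => ∑ i ∈ S, ∑ j ∈ S, (w i * w j) * (box i t * box j (x - t)) := by
    funext t
    unfold step
    rw [Finset.sum_mul_sum]
    refine Finset.sum_congr rfl fun i _ => Finset.sum_congr rfl fun j _ => by ring
  rw [this, integral_finsetSum]
  · unfold dconv
    rw [Finset.mul_sum, Finset.mul_sum, ← Finset.sum_add_distrib]
    refine Finset.sum_congr rfl fun i _ => ?_
    rw [integral_finsetSum]
    · rw [Finset.mul_sum, Finset.mul_sum, ← Finset.sum_add_distrib]
      refine Finset.sum_congr rfl fun j _ => ?_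
      rw [integral_const_mul, box_conv]
      split_ifs <;> ring
    · intro j _
      exact (box_mul_integrable i j x).const_mul _
  · intro i _
    exact integrable_finsetSum _ fun j _ => (box_mul_integrable i j x).const_mul _

lemma dconv_nonneg (S : Finset ℕ) (w : ℕ → ℝ) (hw : ∀ i, 0 ≤ w i) (m : ℤ) : 0 ≤ dconv S w m :=
  Finset.sum_nonneg fun i _ => Finset.sum_nonneg fun j _ => by
    split_ifs
    · exact mul_nonneg (hw i) (hw j)
    · exact le_rfl

theorem analysis (S : Finset ℕ) (w : ℕ → ℝ) (hw : ∀ i, 0 ≤ w i) (H : ℝ)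
    (hH : ∀ m, dconv S w m ≤ H) {τ : Type} (T : Finset τ) (pos : τ → ℤ)
    (hinj : Set.InjOn pos T) (μ : τ → ℝ) (hμ0 : ∀ y ∈ T, 0 ≤ μ y)
    (hμ1 : ∀ y ∈ T, μ y ≤ dconv S w (pos y)) (hμ2 : ∀ y ∈ T, μ y ≤ dconv S w (pos y - 1))
    (c : ℝ) (hc : c ≤ 1) (hlt : (1 - c) * (∑ i ∈ S, w i) ^ 2 * H < ∑ y ∈ T, μ y ^ 2) :
    ¬ (eLpNorm (fun x : ℝ => ∫ t : ℝ, step S w t * step S w (x - t)) 2 volume ^ 2 ≤
          ENNReal.ofReal (1 - c) *
            eLpNorm (fun x : ℝ => ∫ t : ℝ, step S w t * step S w (x - t)) 1 volume *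
            eLpNorm (fun x : ℝ => ∫ t : ℝ, step S w t * step S w (x - t)) ⊤ volume) := by
  set F : ℝ → ℝ := fun x : ℝ => ∫ t : ℝ, step S w t * step S w (x - t) with hF
  have hF0 : ∀ x, 0 ≤ F x := fun x =>
    integral_nonneg fun t => mul_nonneg (step_nonneg S w hw _) (step_nonneg S w hw _)
  have hH0 : 0 ≤ H := (dconv_nonneg S w hw 0).trans (hH 0)
  have hint : Integrable (step S w) volume := memLp_one_iff_integrable.1 (step_memLp S w 1)
  have hFconv : F = convolution (step S w) (step S w) (ContinuousLinearMap.mul ℝ ℝ) volume := by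
    funext x
    simp [hF, convolution_def]
  have hFint : Integrable F volume := by
    rw [hFconv]; exact hint.integrable_convolution _ hint
  have h1 : eLpNorm F 1 volume = ENNReal.ofReal ((∑ i ∈ S, w i) ^ 2) := by
    rw [eLpNorm_one_eq_lintegral_enorm, ← ofReal_integral_norm_eq_lintegral_enorm hFint]
    congr 1
    have : (fun x => ‖F x‖) = F := by
      funext x; exact Real.norm_of_nonneg (hF0 x)
    rw [this, hFconv, integral_convolution _ hint hint, step_integral, sq]
    rfl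
  have htop : eLpNorm F ⊤ volume ≤ ENNReal.ofReal H := by
    rw [eLpNorm_exponent_top]
    refine eLpNormEssSup_le_of_ae_bound (Filter.Eventually.of_forall fun x => ?_)
    rw [Real.norm_of_nonneg (hF0 x)]
    simp only [hF]
    rw [step_conv]
    have h0 := Int.fract_nonneg x
    have h1 := (Int.fract_lt_one x).le
    have h2 := hH ⌊x⌋
    have h3 := hH (⌊x⌋ - 1)
    nlinarith
  have h2 : ENNReal.ofReal (∑ y ∈ T, μ y ^ 2) ≤ eLpNorm F 2 volume ^ 2 := by
    have e1 : eLpNorm F 2 volume ^ 2 = ∫⁻ x, ‖F x‖ₑ ^ 2 := by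
      have := eLpNorm_nnreal_pow_eq_lintegral (f := F) (μ := volume) (p := 2) (by norm_num)
      simpa using this
    rw [e1]
    have hdisj : Set.PairwiseDisjoint (T : Set τ)
        (fun y => Set.Ico ((pos y : ℤ) : ℝ) ((pos y : ℤ) + 1)) := by
      intro y hy y' hy' hne
      have hne' : pos y ≠ pos y' := fun h => hne (hinj hy hy' h)
      refine Set.disjoint_left.2 fun t ht ht' => hne' ?_
      have a1 : ⌊t⌋ = pos y := Int.floor_eq_iff.2 ht
      have a2 : ⌊t⌋ = pos y' := Int.floor_eq_iff.2 ht'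
      rw [← a1, a2]
    calc ENNReal.ofReal (∑ y ∈ T, μ y ^ 2) = ∑ y ∈ T, ENNReal.ofReal (μ y ^ 2) :=
          ENNReal.ofReal_sum_of_nonneg fun y _ => sq_nonneg _
      _ ≤ ∑ y ∈ T, ∫⁻ x in Set.Ico ((pos y : ℤ) : ℝ) ((pos y : ℤ) + 1), ‖F x‖ₑ ^ 2 := by
          refine Finset.sum_le_sum fun y hy => ?_
          calc ENNReal.ofReal (μ y ^ 2)
              = ∫⁻ _x in Set.Ico ((pos y : ℤ) : ℝ) ((pos y : ℤ) + 1), ENNReal.ofReal (μ y ^ 2) := by
                simp
            _ ≤ _ := by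
                refine setLIntegral_mono' measurableSet_Ico fun x hx => ?_
                have a1 : ⌊x⌋ = pos y := Int.floor_eq_iff.2 hx
                have a2 : μ y ≤ F x := by
                  simp only [hF]
                  rw [step_conv, a1]
                  have h0 := Int.fract_nonneg x
                  have h1 := (Int.fract_lt_one x).le
                  have h2 := hμ1 y hy
                  have h3 := hμ2 y hy
                  nlinarith
                rw [← ofReal_norm, Real.norm_of_nonneg (hF0 x),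
                  ← ENNReal.ofReal_pow (hF0 x)]
                exact ENNReal.ofReal_le_ofReal (pow_le_pow_left₀ (hμ0 y hy) a2 2)
      _ = ∫⁻ x in ⋃ y ∈ T, Set.Ico ((pos y : ℤ) : ℝ) ((pos y : ℤ) + 1), ‖F x‖ₑ ^ 2 :=
          (lintegral_biUnion_finset hdisj (fun _ _ => measurableSet_Ico) _).symm
      _ ≤ _ := setLIntegral_le_lintegral _ _
  intro hle
  have h3 : ENNReal.ofReal (∑ y ∈ T, μ y ^ 2) ≤
      ENNReal.ofReal ((1 - c) * (∑ i ∈ S, w i) ^ 2 * H) := by
    refine h2.trans (hle.trans ?_)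
    rw [h1, ENNReal.ofReal_mul (mul_nonneg (by linarith) (sq_nonneg _)),
      ENNReal.ofReal_mul (by linarith)]
    gcongr
  rw [ENNReal.ofReal_le_ofReal_iff (mul_nonneg (mul_nonneg (by linarith) (sq_nonneg _)) hH0)] at h3
  linarith

end Pool.Agent.H431Z.Conv
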