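import Mathlib

set_option autoImplicit false
open Finset

namespace Pool.Agent.H431Z.Conv

/-! ### the sequence with autoconvolution one -/

lemma centralBinom_conv (n : ℕ) :
    ∑ p ∈ antidiagonal n, Nat.centralBinom p.1 * Nat.centralBinom p.2 = 4 ^ n := by
  induction n with
  | zero => simp
  | succ n ih =>
    have sym : ∀ (m : ℕ), 2 * ∑ p ∈ antidiagonal m, p.1 * (Nat.centralBinom p.1 * Nat.centralBinom p.2)
        = m * ∑ p ∈ antidiagonal m, Nat.centralBinom p.1 * Nat.centralBinom p.2 := by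
      intro m
      have h1 : ∑ p ∈ antidiagonal m, p.1 * (Nat.centralBinom p.1 * Nat.centralBinom p.2)
          = ∑ p ∈ antidiagonal m, p.2 * (Nat.centralBinom p.1 * Nat.centralBinom p.2) := by
        rw [← Finset.Nat.sum_antidiagonal_swap]
        refine Finset.sum_congr rfl fun p _ => ?_
        simp [mul_comm]
      rw [two_mul]
      nth_rewrite 2 [h1]
      rw [← Finset.sum_add_distrib, Finset.mul_sum]
      refine Finset.sum_congr rfl fun p hp => ?_
      rw [← mem_antidiagonal.1 hp]; ring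
    have h2 : ∑ p ∈ antidiagonal (n + 1), p.1 * (Nat.centralBinom p.1 * Nat.centralBinom p.2)
        = 2 * (2 * ∑ p ∈ antidiagonal n, p.1 * (Nat.centralBinom p.1 * Nat.centralBinom p.2))
          + 2 * ∑ p ∈ antidiagonal n, Nat.centralBinom p.1 * Nat.centralBinom p.2 := by
      rw [Finset.Nat.sum_antidiagonal_succ]
      simp only [zero_mul, zero_add, Finset.mul_sum]
      rw [← Finset.sum_add_distrib]
      refine Finset.sum_congr rfl fun p _ => ?_
      rw [← mul_assoc, Nat.succ_mul_centralBinom_succ]; ring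
    have h3 := sym (n + 1)
    rw [h2, sym n, ih] at h3
    have : (n + 1) * ∑ p ∈ antidiagonal (n + 1), Nat.centralBinom p.1 * Nat.centralBinom p.2
        = (n + 1) * 4 ^ (n + 1) := by rw [← h3]; ring
    exact Nat.eq_of_mul_eq_mul_left (Nat.succ_pos n) this

noncomputable def al (k : ℕ) : ℝ := (Nat.centralBinom k : ℝ) / 4 ^ k

lemma al_nonneg (k : ℕ) : 0 ≤ al k := by unfold al; positivity

lemma al_conv (n : ℕ) : ∑ p ∈ antidiagonal n, al p.1 * al p.2 = 1 := by
  have h : ∑ p ∈ antidiagonal n, al p.1 * al p.2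
      = (∑ p ∈ antidiagonal n, (Nat.centralBinom p.1 * Nat.centralBinom p.2 : ℕ) : ℕ) / (4 : ℝ) ^ n := by
    push_cast
    rw [Finset.sum_div]
    refine Finset.sum_congr rfl fun p hp => ?_
    unfold al
    rw [← mem_antidiagonal.1 hp, pow_add]
    field_simp
  rw [h, centralBinom_conv]
  push_cast
  field_simp

/-- truncated autoconvolution of `al` -/
noncomputable def ga (K t : ℕ) : ℝ :=
  ∑ u ∈ range (K + 1), ∑ u' ∈ range (K + 1), if u + u' = t then al u * al u' else 0

lemma ga_eq (K t : ℕ) : ga K t =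
    ∑ p ∈ (range (K + 1) ×ˢ range (K + 1)).filter (fun p => p.1 + p.2 = t), al p.1 * al p.2 := by
  unfold ga
  rw [Finset.sum_filter, Finset.sum_product]

lemma ga_nonneg (K t : ℕ) : 0 ≤ ga K t := by
  rw [ga_eq]
  exact Finset.sum_nonneg fun p _ => mul_nonneg (al_nonneg _) (al_nonneg _)

lemma ga_le_one (K t : ℕ) : ga K t ≤ 1 := by
  rw [ga_eq, ← al_conv t]
  refine Finset.sum_le_sum_of_subset_of_nonneg ?_ fun p _ _ => mul_nonneg (al_nonneg _) (al_nonneg _)
  intro p hp
  rw [HasAntidiagonal.mem_antidiagonal]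
  exact (mem_filter.1 hp).2

lemma ga_eq_one {K t : ℕ} (h : t ≤ K) : ga K t = 1 := by
  rw [ga_eq, ← al_conv t]
  congr 1
  ext p
  simp only [mem_filter, mem_product, mem_range, HasAntidiagonal.mem_antidiagonal]
  omega

lemma sum_al_al (K : ℕ) (Φ : ℕ → ℝ) :
    ∑ u ∈ range (K + 1), ∑ u' ∈ range (K + 1), al u * al u' * Φ (u + u')
      = ∑ t ∈ range (2 * K + 1), ga K t * Φ t := by
  unfold ga
  simp only [Finset.sum_mul]
  rw [Finset.sum_comm (s := range (2 * K + 1))]
  refine Finset.sum_congr rfl fun u hu => ?_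
  rw [Finset.sum_comm (s := range (2 * K + 1))]
  refine Finset.sum_congr rfl fun u' hu' => ?_
  rw [Finset.sum_eq_single (u + u')]
  · simp
  · intro t _ ht
    rw [if_neg (Ne.symm ht), zero_mul]
  · intro h
    exfalso
    apply h
    simp only [mem_range] at hu hu' ⊢
    omega

/-! ### sparse sums -/

/-- the number whose base `B` digits count the values of `g` -/
def psi (B : ℕ) {k d : ℕ} (g : Fin k → Fin d) : ℕ := ∑ i, B ^ (g i : ℕ)

/-- number of preimages -/
def cnt {k d : ℕ} (g : Fin k → Fin d) (x : Fin d) : ℕ := (univ.filter fun i => g i = x).card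

lemma cnt_le {k d : ℕ} (g : Fin k → Fin d) (x : Fin d) : cnt g x ≤ k := by
  unfold cnt
  exact (card_filter_le _ _).trans (by simp)

lemma sum_cnt {k d : ℕ} (g : Fin k → Fin d) : ∑ x, cnt g x = k := by
  unfold cnt
  rw [← Finset.card_eq_sum_card_fiberwise (s := univ) (t := univ) (f := g) (by simp)]
  simp

lemma psi_eq (B : ℕ) {k d : ℕ} (g : Fin k → Fin d) : psi B g = ∑ x, cnt g x * B ^ (x : ℕ) := by
  unfold psi cnt
  rw [← Finset.sum_fiberwise (s := univ) (g := g)]
  refine Finset.sum_congr rfl fun x _ => ?_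
  rw [Finset.sum_congr rfl (g := fun _ => B ^ (x : ℕ))]
  · simp
  · intro i hi
    rw [(mem_filter.1 hi).2]

lemma psi_eq' {B k d : ℕ} (hk : k < B) (g : Fin k → Fin d) :
    psi B g = (finFunctionFinEquiv (fun x => (⟨cnt g x, (cnt_le g x).trans_lt hk⟩ : Fin B)) : ℕ) := by
  rw [psi_eq, finFunctionFinEquiv_apply]

lemma psi_lt {B k d : ℕ} (hk : k < B) (g : Fin k → Fin d) : psi B g < B ^ d := by
  rw [psi_eq' hk]; exact Fin.is_lt _

lemma cnt_eq_of_psi {B k k' d : ℕ} (hk : k < B) (hk' : k' < B) {g : Fin k → Fin d}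
    {g' : Fin k' → Fin d} (h : psi B g = psi B g') (x : Fin d) : cnt g x = cnt g' x := by
  rw [psi_eq' hk, psi_eq' hk'] at h
  have h2 := finFunctionFinEquiv.injective (Fin.ext h)
  exact congrArg Fin.val (congrFun h2 x)

lemma eq_of_psi {B k k' d : ℕ} (hk : k < B) (hk' : k' < B) {g : Fin k → Fin d}
    {g' : Fin k' → Fin d} (h : psi B g = psi B g') : k = k' := by
  rw [← sum_cnt g, ← sum_cnt g']
  exact Finset.sum_congr rfl fun x _ => cnt_eq_of_psi hk hk' h x

lemma perm_of_psi {B k d : ℕ} (hk : k < B) {g g' : Fin k → Fin d} (h : psi B g = psi B g') :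
    ∃ π : Equiv.Perm (Fin k), g = g' ∘ π := by
  have e : ∀ x : Fin d, {i // g i = x} ≃ {i // g' i = x} := fun x =>
    Fintype.equivOfCardEq (by
      rw [Fintype.card_subtype, Fintype.card_subtype]
      exact cnt_eq_of_psi hk hk h x)
  refine ⟨Equiv.ofFiberEquiv e, ?_⟩
  funext i
  exact (Equiv.ofFiberEquiv_map e i).symm

/-- number of representations -/
def nrep (B d k v : ℕ) : ℕ := (univ.filter fun g : Fin k → Fin d => psi B g = v).card

lemma nrep_le {B k : ℕ} (hk : k < B) (d v : ℕ) : nrep B d k v ≤ k.factorial := by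
  unfold nrep
  rcases (univ.filter fun g : Fin k → Fin d => psi B g = v).eq_empty_or_nonempty with h | ⟨g0, hg0⟩
  · rw [h]; simp
  · have hsub : (univ.filter fun g : Fin k → Fin d => psi B g = v) ⊆
        univ.image fun π : Equiv.Perm (Fin k) => g0 ∘ π := by
      intro g hg
      obtain ⟨π, hπ⟩ := perm_of_psi hk ((mem_filter.1 hg).2.trans (mem_filter.1 hg0).2.symm)
      exact mem_image.2 ⟨π, mem_univ _, hπ.symm⟩
    refine (card_le_card hsub).trans (card_image_le.trans ?_)
    simp [Fintype.card_perm]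

lemma le_nrep (B : ℕ) {k d : ℕ} {g : Fin k → Fin d} (hg : Function.Injective g) :
    k.factorial ≤ nrep B d k (psi B g) := by
  unfold nrep
  have hsub : (univ.image fun π : Equiv.Perm (Fin k) => g ∘ π) ⊆
      (univ.filter fun g' : Fin k → Fin d => psi B g' = psi B g) := by
    intro g' hg'
    obtain ⟨π, -, rfl⟩ := mem_image.1 hg'
    refine mem_filter.2 ⟨mem_univ _, ?_⟩
    unfold psi
    exact Equiv.sum_comp π (fun i => B ^ (g i : ℕ))
  refine le_trans ?_ (card_le_card hsub)
  rw [card_image_of_injective]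
  · simp [Fintype.card_perm]
  · intro π π' h
    ext i
    exact congrArg Fin.val (hg (congrFun h i))

lemma nrep_ne_zero {B d k v : ℕ} (h : nrep B d k v ≠ 0) : ∃ g : Fin k → Fin d, psi B g = v := by
  obtain ⟨g, hg⟩ := card_ne_zero.1 h
  exact ⟨g, (mem_filter.1 hg).2⟩

/-- the values of `psi` -/
def vals (B d k : ℕ) : Finset ℕ := univ.image fun g : Fin k → Fin d => psi B g

lemma energy (B d k : ℕ) :
    d.descFactorial k * k.factorial ≤ ∑ v ∈ vals B d k, nrep B d k v ^ 2 := by
  have h1 : ∑ v ∈ vals B d k, nrep B d k v ^ 2 = ∑ g : Fin k → Fin d, nrep B d k (psi B g) := by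
    unfold vals
    rw [Finset.sum_comp (fun v => nrep B d k v) (fun g : Fin k → Fin d => psi B g)]
    refine Finset.sum_congr rfl fun v _ => ?_
    rw [sq, smul_eq_mul]
    rfl
  rw [h1]
  have h2 : (univ.filter fun g : Fin k → Fin d => Function.Injective g).card = d.descFactorial k := by
    have := Fintype.card_embedding_eq (α := Fin k) (β := Fin d)
    rw [Fintype.card_fin, Fintype.card_fin] at this
    rw [← this, ← Fintype.card_subtype]
    exact Fintype.card_congr (Equiv.subtypeInjectiveEquivEmbedding _ _)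
  calc d.descFactorial k * k.factorial
      = ∑ _g ∈ univ.filter fun g : Fin k → Fin d => Function.Injective g, k.factorial := by
        rw [sum_const, h2, smul_eq_mul]
    _ ≤ ∑ g ∈ univ.filter fun g : Fin k → Fin d => Function.Injective g, nrep B d k (psi B g) :=
        Finset.sum_le_sum fun g hg => le_nrep B (mem_filter.1 hg).2
    _ ≤ _ := Finset.sum_le_sum_of_subset (filter_subset _ _)

end Pool.Agent.H431Z.Conv
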