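import Mathlib
import Pool.Agent.H431Z.ConvCount
import Pool.Agent.H431Z.ConvAn

set_option autoImplicit false
open Finset Polynomial

namespace Pool.Agent.H431Z.Conv

/-- sparse polynomial -/
noncomputable def sp (B c d : ℕ) : ℝ[X] := ∑ i : Fin d, X ^ (c * B ^ (i : ℕ))

lemma sp_pow (B c d k : ℕ) : sp B c d ^ k = ∑ g : Fin k → Fin d, (X : ℝ[X]) ^ (c * psi B g) := by
  unfold sp psi
  rw [Fintype.sum_pow]
  refine Finset.sum_congr rfl fun g _ => ?_
  rw [Finset.prod_pow_eq_pow_sum, Finset.mul_sum]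

lemma sp_eval (B c d : ℕ) : (sp B c d).eval 1 = d := by
  unfold sp
  simp [eval_finsetSum]

/-- building block -/
noncomputable def blk (B d₁ d₂ t k l : ℕ) : ℝ[X] :=
  X ^ t * sp B B d₁ ^ k * sp B (B * B ^ d₁) d₂ ^ l

lemma blk_mul (B d₁ d₂ t k l t' k' l' : ℕ) :
    blk B d₁ d₂ t k l * blk B d₁ d₂ t' k' l' = blk B d₁ d₂ (t + t') (k + k') (l + l') := by
  unfold blk; ring

lemma blk_eval (B d₁ d₂ t k l : ℕ) : (blk B d₁ d₂ t k l).eval 1 = (d₁ : ℝ) ^ k * (d₂ : ℝ) ^ l := by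
  unfold blk
  simp [sp_eval]

lemma decode {B D t t₀ v v₁ w v₂ : ℕ} (ht : t < B) (ht₀ : t₀ < B) (hv : v < D) (hv₁ : v₁ < D) :
    t₀ + B * (v₁ + D * v₂) = t + B * (v + D * w) ↔ t = t₀ ∧ v = v₁ ∧ w = v₂ := by
  constructor
  · intro h
    have hB : 0 < B := by omega
    have hD : 0 < D := by omega
    have h1 := congrArg (· % B) h
    simp only [Nat.add_mul_mod_self_left, Nat.mod_eq_of_lt ht, Nat.mod_eq_of_lt ht₀] at h1
    subst h1
    have h2 : v₁ + D * v₂ = v + D * w := Nat.eq_of_mul_eq_mul_left hB (Nat.add_left_cancel h)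
    have h3 := congrArg (· % D) h2
    simp only [Nat.add_mul_mod_self_left, Nat.mod_eq_of_lt hv, Nat.mod_eq_of_lt hv₁] at h3
    subst h3
    exact ⟨rfl, rfl, (Nat.eq_of_mul_eq_mul_left hD (Nat.add_left_cancel h2)).symm⟩
  · rintro ⟨rfl, rfl, rfl⟩; rfl

lemma blk_eq (B d₁ d₂ t k l : ℕ) : blk B d₁ d₂ t k l =
    ∑ g : Fin k → Fin d₁, ∑ h : Fin l → Fin d₂,
      (X : ℝ[X]) ^ (t + B * (psi B g + B ^ d₁ * psi B h)) := by
  unfold blk
  rw [sp_pow, sp_pow, mul_assoc, Finset.sum_mul_sum, Finset.mul_sum]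
  refine Finset.sum_congr rfl fun g _ => ?_
  rw [Finset.mul_sum]
  refine Finset.sum_congr rfl fun h _ => ?_
  rw [← pow_add, ← pow_add]
  congr 1
  ring

lemma blk_coeff_nonneg (B d₁ d₂ t k l m : ℕ) : 0 ≤ (blk B d₁ d₂ t k l).coeff m := by
  rw [blk_eq]
  simp only [finsetSum_coeff, coeff_X_pow]
  refine Finset.sum_nonneg fun g _ => Finset.sum_nonneg fun h _ => ?_
  split_ifs <;> norm_num

lemma blk_coeff {B d₁ t k t₀ v₁ : ℕ} (d₂ l v₂ : ℕ) (ht : t < B) (ht₀ : t₀ < B) (hk : k < B)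
    (hv₁ : v₁ < B ^ d₁) :
    (blk B d₁ d₂ t k l).coeff (t₀ + B * (v₁ + B ^ d₁ * v₂)) =
      if t = t₀ then (nrep B d₁ k v₁ : ℝ) * nrep B d₂ l v₂ else 0 := by
  rw [blk_eq]
  simp only [finsetSum_coeff, coeff_X_pow]
  simp only [decode ht ht₀ (psi_lt hk _) hv₁]
  split_ifs with h
  · unfold nrep
    rw [Finset.card_filter, Finset.card_filter]
    push_cast
    rw [Finset.sum_mul_sum]
    refine Finset.sum_congr rfl fun g _ => Finset.sum_congr rfl fun h' _ => ?_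
    by_cases a : psi B g = v₁ <;> by_cases b : psi B h' = v₂ <;> simp [h, a, b]
  · simp [h]

/-- the polynomial whose coefficients are the heights of the step function -/
noncomputable def pol (K n d₁ d₂ : ℕ) : ℝ[X] :=
  ∑ u ∈ range (K + 1), ∑ v ∈ range (K + 1),
    C (al u * al v) * blk (4 * n + 1) d₁ d₂ u (n + u + v) (n - u - v)

lemma pol_coeff_nonneg (K n d₁ d₂ m : ℕ) : 0 ≤ (pol K n d₁ d₂).coeff m := by
  unfold pol
  simp only [finsetSum_coeff, coeff_C_mul]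
  exact Finset.sum_nonneg fun u _ => Finset.sum_nonneg fun v _ =>
    mul_nonneg (mul_nonneg (al_nonneg _) (al_nonneg _)) (blk_coeff_nonneg _ _ _ _ _ _ _)

lemma pol_sq_coeff {K n : ℕ} (hK : 2 * K ≤ n) (d₁ d₂ m : ℕ) :
    (pol K n d₁ d₂ * pol K n d₁ d₂).coeff m =
      ∑ t ∈ range (2 * K + 1), ∑ r ∈ range (2 * K + 1), ga K t * ga K r *
        (blk (4 * n + 1) d₁ d₂ t (2 * n + t + r) (2 * n - t - r)).coeff m := by
  have h1 : (pol K n d₁ d₂ * pol K n d₁ d₂).coeff m =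
      ∑ u ∈ range (K + 1), ∑ u' ∈ range (K + 1), al u * al u' *
        ∑ v ∈ range (K + 1), ∑ v' ∈ range (K + 1), al v * al v' *
          (blk (4 * n + 1) d₁ d₂ (u + u') (2 * n + (u + u') + (v + v'))
            (2 * n - (u + u') - (v + v'))).coeff m := by
    unfold pol
    rw [Finset.sum_mul_sum, finsetSum_coeff]
    refine Finset.sum_congr rfl fun u hu => ?_
    rw [finsetSum_coeff]
    refine Finset.sum_congr rfl fun u' hu' => ?_
    rw [Finset.sum_mul_sum, finsetSum_coeff, Finset.mul_sum]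
    refine Finset.sum_congr rfl fun v hv => ?_
    rw [finsetSum_coeff, Finset.mul_sum]
    refine Finset.sum_congr rfl fun v' hv' => ?_
    simp only [mem_range] at hu hu' hv hv'
    rw [mul_mul_mul_comm, blk_mul, ← C_mul, coeff_C_mul]
    have e1 : n + u + v + (n + u' + v') = 2 * n + (u + u') + (v + v') := by ring
    have e2 : n - u - v + (n - u' - v') = 2 * n - (u + u') - (v + v') := by omega
    rw [e1, e2]; ring
  rw [h1, sum_al_al K (fun t => ∑ v ∈ range (K + 1), ∑ v' ∈ range (K + 1), al v * al v' *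
          (blk (4 * n + 1) d₁ d₂ t (2 * n + t + (v + v')) (2 * n - t - (v + v'))).coeff m)]
  refine Finset.sum_congr rfl fun t _ => ?_
  rw [sum_al_al K (fun r => (blk (4 * n + 1) d₁ d₂ t (2 * n + t + r) (2 * n - t - r)).coeff m),
    Finset.mul_sum]
  refine Finset.sum_congr rfl fun r _ => by ring

lemma pol_sq_le {K n : ℕ} (hK : 2 * K ≤ n) (d₁ d₂ : ℕ) (H : ℝ)
    (hH : ∀ s ≤ 4 * K, ((2 * n + s).factorial : ℝ) * (2 * n - s).factorial ≤ H) (m : ℕ) :
    (pol K n d₁ d₂ * pol K n d₁ d₂).coeff m ≤ H := by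
  have hH0 : 0 ≤ H := le_trans (by positivity) (hH 0 (Nat.zero_le _))
  set B := 4 * n + 1 with hB
  have hBpos : 0 < B := by omega
  have hDpos : 0 < B ^ d₁ := pow_pos hBpos _
  obtain ⟨t₀, v₁, v₂, ht₀, hv₁, rfl⟩ : ∃ t₀ v₁ v₂, t₀ < B ∧ v₁ < B ^ d₁ ∧
      m = t₀ + B * (v₁ + B ^ d₁ * v₂) :=
    ⟨m % B, (m / B) % B ^ d₁, (m / B) / B ^ d₁, Nat.mod_lt _ hBpos, Nat.mod_lt _ hDpos, by
      rw [Nat.mod_add_div, Nat.mod_add_div]⟩
  obtain ⟨r₀, hr₀⟩ : ∃ r₀, ∀ r ≤ 2 * K, t₀ ≤ 2 * K → nrep B d₁ (2 * n + t₀ + r) v₁ ≠ 0 → r = r₀ := by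
    by_cases h : ∃ r ≤ 2 * K, t₀ ≤ 2 * K ∧ nrep B d₁ (2 * n + t₀ + r) v₁ ≠ 0
    · obtain ⟨r₀, h1, h2, h3⟩ := h
      refine ⟨r₀, fun r hr _ h4 => ?_⟩
      obtain ⟨g, hg⟩ := nrep_ne_zero h3
      obtain ⟨g', hg'⟩ := nrep_ne_zero h4
      have := eq_of_psi (B := B) (by omega) (by omega) (hg.trans hg'.symm)
      omega
    · exact ⟨0, fun r hr h1 h2 => absurd ⟨r, hr, h1, h2⟩ h⟩
  rw [pol_sq_coeff hK]
  calc _ ≤ ∑ t ∈ range (2 * K + 1), ∑ r ∈ range (2 * K + 1),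
        if t = t₀ then (if r = r₀ then H else 0) else 0 := by
        refine Finset.sum_le_sum fun t ht => Finset.sum_le_sum fun r hr => ?_
        simp only [mem_range] at ht hr
        rw [blk_coeff d₂ _ v₂ (by omega) ht₀ (by omega) hv₁]
        split_ifs with h1 h2
        · have a1 : (nrep B d₁ (2 * n + t + r) v₁ : ℝ) ≤ (2 * n + (t + r)).factorial := by
            rw [← add_assoc]; exact_mod_cast nrep_le (by omega) _ _
          have a2 : (nrep B d₂ (2 * n - t - r) v₂ : ℝ) ≤ (2 * n - (t + r)).factorial := by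
            rw [← Nat.sub_sub]; exact_mod_cast nrep_le (by omega) _ _
          have a3 := hH (t + r) (by omega)
          have a4 : ga K t * ga K r ≤ 1 :=
            mul_le_one₀ (ga_le_one _ _) (ga_nonneg _ _) (ga_le_one _ _)
          calc _ ≤ 1 * H := by
                refine mul_le_mul a4 (le_trans ?_ a3) (by positivity) zero_le_one
                gcongr
            _ = H := one_mul _
        · subst h1
          have : nrep B d₁ (2 * n + t + r) v₁ = 0 := by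
            by_contra h
            exact h2 (hr₀ r (by omega) (by omega) h)
          simp [this]
        · simp
    _ ≤ H := by
        simp only [Finset.sum_ite_irrel, Finset.sum_ite_eq', Finset.sum_const_zero]
        split_ifs <;> first | exact le_rfl | exact hH0

lemma le_pol_sq {K n : ℕ} (hK : 2 * K ≤ n) (d₁ d₂ : ℕ) {t r v₁ : ℕ} (v₂ : ℕ) (ht : t ≤ K) (hr : r ≤ K)
    (hv₁ : v₁ < (4 * n + 1) ^ d₁) :
    (nrep (4 * n + 1) d₁ (2 * n + (t + r)) v₁ : ℝ) * nrep (4 * n + 1) d₂ (2 * n - (t + r)) v₂ ≤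
      (pol K n d₁ d₂ * pol K n d₁ d₂).coeff (t + (4 * n + 1) * (v₁ + (4 * n + 1) ^ d₁ * v₂)) := by
  rw [pol_sq_coeff hK]
  have hnn : ∀ t' r' m, 0 ≤ ga K t' * ga K r' *
      (blk (4 * n + 1) d₁ d₂ t' (2 * n + t' + r') (2 * n - t' - r')).coeff m := fun t' r' m =>
    mul_nonneg (mul_nonneg (ga_nonneg _ _) (ga_nonneg _ _)) (blk_coeff_nonneg _ _ _ _ _ _ _)
  refine le_trans ?_ (Finset.single_le_sum (a := t)
    (fun t' _ => Finset.sum_nonneg fun r' _ => hnn t' r' _) (mem_range.2 (by omega)))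
  refine le_trans ?_ (Finset.single_le_sum (a := r)
    (fun r' _ => hnn t r' _) (mem_range.2 (by omega)))
  rw [blk_coeff d₂ _ v₂ (by omega) (by omega) (by omega) hv₁, if_pos rfl, ga_eq_one ht, ga_eq_one hr,
    ← add_assoc, ← Nat.sub_sub]
  simp

lemma pol_eval {K n : ℕ} (hK : 2 * K ≤ n) {d₁ d₂ : ℕ} (h : d₁ < d₂) :
    ((pol K n d₁ d₂).eval 1) ^ 2 ≤
      ((d₁ : ℝ) * d₂) ^ (2 * n) * ((1 - (d₁ : ℝ) / d₂)⁻¹) ^ 2 := by
  have hd₂ : (0 : ℝ) < d₂ := by exact_mod_cast (Nat.zero_le _).trans_lt h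
  set ρ : ℝ := (d₁ : ℝ) / d₂ with hρ
  have hρ0 : 0 ≤ ρ := by positivity
  have hρ1 : ρ < 1 := by rw [hρ, div_lt_one hd₂]; exact_mod_cast h
  have h1 : (pol K n d₁ d₂).eval 1 = ((d₁ : ℝ) * d₂) ^ n *
      ∑ u ∈ range (K + 1), ∑ v ∈ range (K + 1), al u * al v * ρ ^ (u + v) := by
    unfold pol
    rw [eval_finsetSum, Finset.mul_sum]
    refine Finset.sum_congr rfl fun u hu => ?_
    rw [eval_finsetSum, Finset.mul_sum]
    refine Finset.sum_congr rfl fun v hv => ?_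
    simp only [mem_range] at hu hv
    rw [eval_mul, eval_C, blk_eval]
    obtain ⟨e, he⟩ : ∃ e, n = e + (u + v) := ⟨n - (u + v), by omega⟩
    have e2 : n - u - v = e := by omega
    rw [e2, he, hρ, div_pow]
    field_simp
    ring
  have h2 : ∑ u ∈ range (K + 1), ∑ v ∈ range (K + 1), al u * al v * ρ ^ (u + v) ≤ (1 - ρ)⁻¹ := by
    rw [sum_al_al K (fun t => ρ ^ t), ← tsum_geometric_of_lt_one hρ0 hρ1]
    refine le_trans ?_ ((summable_geometric_of_lt_one hρ0 hρ1).sum_le_tsum (range (2 * K + 1))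
      fun i _ => by positivity)
    refine Finset.sum_le_sum fun t _ => ?_
    exact mul_le_of_le_one_left (by positivity) (ga_le_one _ _)
  have h3 : 0 ≤ ∑ u ∈ range (K + 1), ∑ v ∈ range (K + 1), al u * al v * ρ ^ (u + v) :=
    Finset.sum_nonneg fun u _ => Finset.sum_nonneg fun v _ =>
      mul_nonneg (mul_nonneg (al_nonneg _) (al_nonneg _)) (by positivity)
  rw [h1, mul_pow, ← pow_mul, mul_comm n 2]
  gcongr

lemma dconv_eq (p : ℝ[X]) (m : ℕ) : dconv p.support p.coeff (m : ℤ) = (p * p).coeff m := by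
  unfold dconv
  conv_rhs => rw [p.as_sum_support, Finset.sum_mul_sum]
  simp only [finsetSum_coeff, monomial_mul_monomial, coeff_monomial]
  refine Finset.sum_congr rfl fun i _ => Finset.sum_congr rfl fun j _ => ?_
  have : ((i : ℤ) + j = m) ↔ (i + j = m) := by omega
  simp only [this]

lemma dconv_neg (S : Finset ℕ) (w : ℕ → ℝ) {m : ℤ} (hm : m < 0) : dconv S w m = 0 := by
  unfold dconv
  refine Finset.sum_eq_zero fun i _ => Finset.sum_eq_zero fun j _ => if_neg (by omega)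

end Pool.Agent.H431Z.Conv
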