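import Mathlib
import Pool.Agent.H431Z.ConvMain

set_option autoImplicit false
open Finset Polynomial Filter Topology MeasureTheory

namespace Pool.Agent.H431Z.Conv

lemma fact_upper {K n s : ℕ} (hK : 2 * K < n) (hs : s ≤ 4 * K) :
    ((2 * n + s).factorial : ℝ) * (2 * n - s).factorial ≤
      ((2 * n).factorial : ℝ) ^ 2 * ((2 * n + 4 * K) / (2 * n - 4 * K)) ^ (4 * K) := by
  have hK' : (2 * K : ℝ) < n := by exact_mod_cast hK
  have hs' : (s : ℝ) ≤ 4 * K := by exact_mod_cast hs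
  have hpos : (0 : ℝ) < 2 * n - 4 * K := by linarith
  have hK0 : (0 : ℝ) ≤ K := Nat.cast_nonneg _
  have h1 : ((2 * n + s).factorial : ℝ) ≤ (2 * n).factorial * (2 * n + 4 * K) ^ s := by
    have a : (2 * n + s).factorial ≤ (2 * n).factorial * (2 * n + s) ^ s := by
      rw [← Nat.factorial_mul_ascFactorial]
      exact Nat.mul_le_mul_left _ (Nat.ascFactorial_le_pow_add _ _)
    have b : ((2 * n + s).factorial : ℝ) ≤ (2 * n).factorial * (2 * n + s) ^ s := by exact_mod_cast a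
    refine b.trans ?_
    gcongr
  have h2 : ((2 * n - s).factorial : ℝ) * (2 * n - 4 * K) ^ s ≤ (2 * n).factorial := by
    have a := Nat.factorial_mul_pow_le_factorial (m := 2 * n - s) (n := s)
    rw [Nat.sub_add_cancel (by omega)] at a
    have b : ((2 * n - s).factorial : ℝ) * (((2 * n - s : ℕ) : ℝ) + 1) ^ s ≤ (2 * n).factorial := by
      exact_mod_cast a
    refine le_trans ?_ b
    have c : ((2 * n - s : ℕ) : ℝ) = 2 * n - s := by
      rw [Nat.cast_sub (by omega)]; push_cast; ring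
    rw [c]
    gcongr
    linarith
  have h3 : ((2 * n - s).factorial : ℝ) ≤ (2 * n).factorial / (2 * n - 4 * K) ^ s := by
    rw [le_div_iff₀ (pow_pos hpos _)]; exact h2
  have h4 : (1 : ℝ) ≤ (2 * n + 4 * K) / (2 * n - 4 * K) := by
    rw [le_div_iff₀ hpos]; linarith
  calc _ ≤ ((2 * n).factorial * (2 * n + 4 * K : ℝ) ^ s) *
        ((2 * n).factorial / (2 * n - 4 * K) ^ s) := by gcongr
    _ = ((2 * n).factorial : ℝ) ^ 2 * ((2 * n + 4 * K) / (2 * n - 4 * K)) ^ s := by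
        rw [div_pow]; ring
    _ ≤ _ := by gcongr

lemma fact_lower {n s : ℕ} (hs : s ≤ 2 * n) :
    (2 * n).factorial ^ 2 ≤ (2 * n + s).factorial * (2 * n - s).factorial := by
  have h1 := Nat.factorial_mul_pow_le_factorial (m := 2 * n) (n := s)
  have h2 : (2 * n).factorial ≤ (2 * n - s).factorial * (2 * n + 1) ^ s := by
    have a : (2 * n - s + s).factorial ≤ (2 * n - s).factorial * (2 * n - s + s) ^ s := by
      rw [← Nat.factorial_mul_ascFactorial]
      exact Nat.mul_le_mul_left _ (Nat.ascFactorial_le_pow_add _ _)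
    rw [Nat.sub_add_cancel hs] at a
    refine a.trans ?_
    gcongr
    omega
  calc (2 * n).factorial ^ 2 = (2 * n).factorial * (2 * n).factorial := sq _
    _ ≤ (2 * n).factorial * ((2 * n - s).factorial * (2 * n + 1) ^ s) := by gcongr
    _ = ((2 * n).factorial * (2 * n + 1) ^ s) * (2 * n - s).factorial := by ring
    _ ≤ _ := by gcongr

lemma desc_lower {n D d k : ℕ} (hk : k ≤ 4 * n) (hD : 4 * n < D) (hd : D ≤ d) :
    ((d : ℝ) * (1 - 4 * n / D)) ^ k ≤ d.descFactorial k := by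
  have hD' : (4 * n : ℝ) < D := by exact_mod_cast hD
  have hDpos : (0 : ℝ) < D := lt_of_le_of_lt (by positivity) hD'
  have hd' : (D : ℝ) ≤ d := by exact_mod_cast hd
  have hk' : (k : ℝ) ≤ 4 * n := by exact_mod_cast hk
  have a : (((d + 1 - k : ℕ) : ℝ)) ^ k ≤ d.descFactorial k := by
    exact_mod_cast Nat.pow_sub_le_descFactorial d k
  refine le_trans ?_ a
  have h0 : 0 ≤ 1 - 4 * (n : ℝ) / D := by
    rw [sub_nonneg, div_le_one hDpos]; exact hD'.le
  have c : ((d + 1 - k : ℕ) : ℝ) = d + 1 - k := by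
    rw [Nat.cast_sub (by omega)]; push_cast; ring
  rw [c]
  have e : (4 * n : ℝ) ≤ d * (4 * n / D) := by
    rw [mul_div_assoc', le_div_iff₀ hDpos]
    have : (0 : ℝ) ≤ 4 * n := by positivity
    nlinarith
  gcongr
  linarith

lemma params (c : ℝ) (hc : 0 < c) : ∃ L K n D : ℕ, 1 ≤ L ∧ 2 * K < n ∧ 4 * n < D ∧
    (1 - c) * ((L : ℝ) + 1) ^ 2 * ((2 * n + 4 * K) / (2 * n - 4 * K)) ^ (4 * K) <
      (1 - 4 * (n : ℝ) / D) ^ (4 * n) *
        ∑ s ∈ range (K + 1), (s : ℝ) * ((L : ℝ) / (L + 1)) ^ s := by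
  obtain ⟨L, hL⟩ := exists_nat_gt (1 / c)
  have hLpos : (0 : ℝ) < L := lt_trans (by positivity) hL
  have hL1 : 1 ≤ L := by exact_mod_cast Nat.succ_le_of_lt (by exact_mod_cast hLpos)
  have h1 : (1 - c) * ((L : ℝ) + 1) ^ 2 < L * (L + 1) := by
    rw [div_lt_iff₀ hc] at hL
    have : (1 - c) * ((L : ℝ) + 1) < L := by nlinarith
    nlinarith
  have hρ : ‖(L : ℝ) / (L + 1)‖ < 1 := by
    rw [Real.norm_of_nonneg (by positivity), div_lt_one (by positivity)]; linarith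
  have h2 := (hasSum_coe_mul_geometric_of_norm_lt_one hρ).tendsto_sum_nat
  have e : (L : ℝ) / (L + 1) / (1 - L / (L + 1)) ^ 2 = L * (L + 1) := by
    field_simp
    ring
  rw [e] at h2
  obtain ⟨K, hK⟩ := (((tendsto_add_atTop_iff_nat 1).2 h2).eventually_const_lt h1).exists
  have h3 : Tendsto (fun n : ℕ => (1 - c) * ((L : ℝ) + 1) ^ 2 *
      ((2 * n + 4 * K) / (2 * n - 4 * K)) ^ (4 * K)) atTop (𝓝 ((1 - c) * ((L : ℝ) + 1) ^ 2 * 1 ^ (4 * K))) := by
    refine Tendsto.const_mul _ (Tendsto.pow ?_ _)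
    have a : Tendsto (fun n : ℕ => (2 + 4 * K / (n : ℝ)) / (2 - 4 * K / (n : ℝ))) atTop
        (𝓝 ((2 + 0) / (2 - 0))) :=
      Tendsto.div (tendsto_const_nhds.add (tendsto_const_div_atTop_nhds_zero_nat _))
        (tendsto_const_nhds.sub (tendsto_const_div_atTop_nhds_zero_nat _)) (by norm_num)
    have b : ((2 : ℝ) + 0) / (2 - 0) = 1 := by norm_num
    rw [b] at a
    refine a.congr' ?_
    filter_upwards [eventually_gt_atTop 0] with n hn
    have hn' : (n : ℝ) ≠ 0 := by exact_mod_cast hn.ne'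
    have e1 : (2 + 4 * K / (n : ℝ)) = (2 * n + 4 * K) / n := by field_simp
    have e2 : (2 - 4 * K / (n : ℝ)) = (2 * n - 4 * K) / n := by field_simp
    rw [e1, e2, div_div_div_cancel_right₀ hn']
  rw [one_pow, mul_one] at h3
  obtain ⟨n, hn1, hn2⟩ := ((h3.eventually_lt_const hK).and (eventually_gt_atTop (2 * K))).exists
  have h4 : Tendsto (fun D : ℕ => (1 - 4 * (n : ℝ) / D) ^ (4 * n) *
        ∑ s ∈ range (K + 1), (s : ℝ) * ((L : ℝ) / (L + 1)) ^ s) atTop
        (𝓝 ((1 - 0) ^ (4 * n) * ∑ s ∈ range (K + 1), (s : ℝ) * ((L : ℝ) / (L + 1)) ^ s)) :=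
    Tendsto.mul_const _ (Tendsto.pow
      (tendsto_const_nhds.sub (tendsto_const_div_atTop_nhds_zero_nat _)) _)
  rw [sub_zero, one_pow, one_mul] at h4
  obtain ⟨D, hD1, hD2⟩ := ((h4.eventually_const_lt hn1).and (eventually_gt_atTop (4 * n))).exists
  exact ⟨L, K, n, D, hL1, hn2, hD2, hD1⟩

theorem final (c : ℝ) (hc : 0 < c) (hc1 : c ≤ 1) : ∃ f : ℝ → ℝ, (∀ x, 0 ≤ f x) ∧
    MemLp f 1 volume ∧ MemLp f 2 volume ∧
    ¬ (eLpNorm (fun x : ℝ => ∫ t : ℝ, f t * f (x - t)) 2 volume ^ 2 ≤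
          ENNReal.ofReal (1 - c) *
            eLpNorm (fun x : ℝ => ∫ t : ℝ, f t * f (x - t)) 1 volume *
            eLpNorm (fun x : ℝ => ∫ t : ℝ, f t * f (x - t)) ⊤ volume) := by
  obtain ⟨L, K, n, D, hL, hK, hD, hnum⟩ := params c hc
  set d₁ := L * D with hd₁
  set d₂ := (L + 1) * D with hd₂
  set B := 4 * n + 1 with hB
  set p := pol K n d₁ d₂ with hp
  have hw : ∀ i, 0 ≤ p.coeff i := pol_coeff_nonneg K n d₁ d₂
  refine ⟨step p.support p.coeff, step_nonneg _ _ hw, step_memLp _ _ _, step_memLp _ _ _, ?_⟩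
  set H : ℝ := ((2 * n).factorial : ℝ) ^ 2 * ((2 * n + 4 * K) / (2 * n - 4 * K)) ^ (4 * K) with hHdef
  have hH : ∀ s ≤ 4 * K, ((2 * n + s).factorial : ℝ) * (2 * n - s).factorial ≤ H :=
    fun s hs => fact_upper hK hs
  have hH0 : 0 ≤ H := le_trans (by positivity) (hH 0 (Nat.zero_le _))
  let T : Finset (Σ _ : ℕ, ℕ × ℕ × ℕ) := (range (K + 1)).sigma fun s =>
    Icc 1 s ×ˢ (vals B d₁ (2 * n + s) ×ˢ vals B d₂ (2 * n - s))
  have hT : ∀ y ∈ T, y.1 ≤ K ∧ 1 ≤ y.2.1 ∧ y.2.1 ≤ y.1 ∧ y.2.2.1 < B ^ d₁ ∧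
      ∃ g : Fin (2 * n + y.1) → Fin d₁, psi B g = y.2.2.1 := by
    intro y hy
    simp only [T, mem_sigma, mem_range, mem_product, mem_Icc, vals, mem_image, mem_univ,
      true_and] at hy
    obtain ⟨h1, ⟨h2, h3⟩, ⟨g, hg⟩, -⟩ := hy
    exact ⟨by omega, h2, h3, hg ▸ psi_lt (by omega) g, g, hg⟩
  refine analysis _ _ hw H ?_ T
    (fun y => ((y.2.1 + B * (y.2.2.1 + B ^ d₁ * y.2.2.2) : ℕ) : ℤ)) ?_
    (fun y => (nrep B d₁ (2 * n + y.1) y.2.2.1 : ℝ) * nrep B d₂ (2 * n - y.1) y.2.2.2)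
    (fun y _ => by positivity) ?_ ?_ c hc1 ?_
  · intro m
    rcases lt_or_ge m 0 with hm | hm
    · rw [dconv_neg _ _ hm]; exact hH0
    · obtain ⟨m, rfl⟩ := Int.eq_ofNat_of_zero_le hm
      rw [dconv_eq]
      exact pol_sq_le hK.le d₁ d₂ H hH m
  · rintro ⟨s, t, v₁, v₂⟩ hy ⟨s', t', v₁', v₂'⟩ hy' h
    obtain ⟨a1, a2, a3, a4, g, hg⟩ := hT _ hy
    obtain ⟨b1, b2, b3, b4, g', hg'⟩ := hT _ hy'
    simp only at a1 a2 a3 a4 b1 b2 b3 b4 g g' hg hg'
    have h' : t + B * (v₁ + B ^ d₁ * v₂) = t' + B * (v₁' + B ^ d₁ * v₂') := Int.ofNat_inj.1 h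
    obtain ⟨rfl, rfl, rfl⟩ := (decode (by omega) (by omega) b4 a4).1 h'
    have := eq_of_psi (B := B) (by omega) (by omega) (hg.trans hg'.symm)
    obtain rfl : s = s' := by omega
    rfl
  · rintro ⟨s, t, v₁, v₂⟩ hy
    obtain ⟨a1, a2, a3, a4, -⟩ := hT _ hy
    simp only at a1 a2 a3 a4 ⊢
    rw [dconv_eq]
    have := le_pol_sq hK.le d₁ d₂ (t := t) (r := s - t) v₂ (by omega) (by omega) a4
    rwa [show t + (s - t) = s by omega] at this
  · rintro ⟨s, t, v₁, v₂⟩ hy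
    obtain ⟨a1, a2, a3, a4, -⟩ := hT _ hy
    simp only at a1 a2 a3 a4 ⊢
    have e : ((t + B * (v₁ + B ^ d₁ * v₂) : ℕ) : ℤ) - 1
        = ((t - 1 + B * (v₁ + B ^ d₁ * v₂) : ℕ) : ℤ) := by
      obtain ⟨t', rfl⟩ : ∃ t', t = t' + 1 := ⟨t - 1, by omega⟩
      simp only [Nat.add_sub_cancel]
      push_cast; ring
    rw [e, dconv_eq]
    have := le_pol_sq hK.le d₁ d₂ (t := t - 1) (r := s - (t - 1)) v₂ (by omega) (by omega) a4
    rwa [show t - 1 + (s - (t - 1)) = s by omega] at this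
  · have hDpos : (0 : ℝ) < D := by exact_mod_cast (Nat.zero_le _).trans_lt hD
    have hLpos : (0 : ℝ) < L := by exact_mod_cast hL
    have hmass : ∑ i ∈ p.support, p.coeff i = p.eval 1 := by
      rw [eval_eq_sum, Polynomial.sum_def]; simp
    have hlt : d₁ < d₂ := Nat.mul_lt_mul_of_pos_right (Nat.lt_succ_self L) (by omega)
    have hρ : (d₁ : ℝ) / d₂ = (L : ℝ) / (L + 1) := by
      rw [hd₁, hd₂]; push_cast; field_simp
    have hmass2 := pol_eval hK.le hlt
    have e : (1 - (L : ℝ) / (L + 1))⁻¹ = L + 1 := by field_simp; ring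
    rw [hρ, e, ← hp, ← hmass] at hmass2
    set M : ℝ := ((d₁ : ℝ) * d₂) ^ (2 * n) with hM
    have hd₁pos : (0 : ℝ) < d₁ := by rw [hd₁]; push_cast; positivity
    have hd₂pos : (0 : ℝ) < d₂ := by rw [hd₂]; push_cast; positivity
    have hMpos : 0 < M := by positivity
    have hFpos : (0 : ℝ) < ((2 * n).factorial : ℝ) ^ 2 := by positivity
    set η : ℝ := 1 - 4 * (n : ℝ) / D with hη
    have hη0 : 0 ≤ η := by
      rw [hη, sub_nonneg, div_le_one hDpos]; exact_mod_cast hD.le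
    have hlow : M * ((2 * n).factorial : ℝ) ^ 2 *
        (η ^ (4 * n) * ∑ s ∈ range (K + 1), (s : ℝ) * ((L : ℝ) / (L + 1)) ^ s) ≤
        ∑ y ∈ T, ((nrep B d₁ (2 * n + y.1) y.2.2.1 : ℝ) * nrep B d₂ (2 * n - y.1) y.2.2.2) ^ 2 := by
      simp only [T]
      rw [Finset.sum_sigma, Finset.mul_sum, Finset.mul_sum]
      refine Finset.sum_le_sum fun s hs => ?_
      have hs' : s ≤ K := by simpa [Nat.lt_succ_iff] using hs
      rw [Finset.sum_product]
      simp only [Finset.sum_const, Nat.card_Icc, Nat.add_sub_cancel, nsmul_eq_mul]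
      rw [Finset.sum_product]
      simp only [mul_pow]
      rw [← Finset.sum_mul_sum]
      have e1 : ((d₁.descFactorial (2 * n + s) : ℝ) * (2 * n + s).factorial) ≤
          ∑ v ∈ vals B d₁ (2 * n + s), (nrep B d₁ (2 * n + s) v : ℝ) ^ 2 := by
        exact_mod_cast energy B d₁ (2 * n + s)
      have e2 : ((d₂.descFactorial (2 * n - s) : ℝ) * (2 * n - s).factorial) ≤
          ∑ v ∈ vals B d₂ (2 * n - s), (nrep B d₂ (2 * n - s) v : ℝ) ^ 2 := by
        exact_mod_cast energy B d₂ (2 * n - s)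
      have e3 := desc_lower (n := n) (D := D) (d := d₁) (k := 2 * n + s) (by omega) hD
        (Nat.le_mul_of_pos_left _ hL)
      have e4 := desc_lower (n := n) (D := D) (d := d₂) (k := 2 * n - s) (by omega) hD
        (Nat.le_mul_of_pos_left _ (Nat.succ_pos _))
      have e5 : ((2 * n).factorial : ℝ) ^ 2 ≤ (2 * n + s).factorial * (2 * n - s).factorial := by
        exact_mod_cast fact_lower (n := n) (s := s) (by omega)
      rw [← hη] at e3 e4
      have e6 : M * (η ^ (4 * n) * ((L : ℝ) / (L + 1)) ^ s) =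
          (d₁ * η) ^ (2 * n + s) * (d₂ * η) ^ (2 * n - s) := by
        obtain ⟨e, he⟩ : ∃ e, 2 * n = e + s := ⟨2 * n - s, by omega⟩
        have e7 : 4 * n = 2 * (e + s) := by omega
        rw [← hρ, hM, e7, he, Nat.add_sub_cancel, div_pow]
        field_simp
        ring
      calc _ = (s : ℝ) * ((M * (η ^ (4 * n) * ((L : ℝ) / (L + 1)) ^ s)) *
            ((2 * n).factorial : ℝ) ^ 2) := by ring
        _ ≤ (s : ℝ) * (((d₁.descFactorial (2 * n + s) : ℝ) * d₂.descFactorial (2 * n - s)) *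
            ((2 * n + s).factorial * (2 * n - s).factorial)) := by
            rw [e6]; gcongr
        _ = (s : ℝ) * (((d₁.descFactorial (2 * n + s) : ℝ) * (2 * n + s).factorial) *
            (d₂.descFactorial (2 * n - s) * (2 * n - s).factorial)) := by ring
        _ ≤ _ := by gcongr
    refine lt_of_lt_of_le ?_ hlow
    refine lt_of_le_of_lt ?_ (mul_lt_mul_of_pos_left hnum (mul_pos hMpos hFpos))
    calc (1 - c) * (∑ i ∈ p.support, p.coeff i) ^ 2 * H ≤ (1 - c) * (M * ((L : ℝ) + 1) ^ 2) * H := by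
          have : 0 ≤ 1 - c := by linarith
          gcongr
      _ = _ := by rw [hHdef]; ring

end Pool.Agent.H431Z.Conv
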